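import Pool.Agent.Helper30.BX.Levels
import Pool.Agent.Helper30.BX.Torus

/-!
# MP_a4e7e3_co: an almost quadratic bound for all sets

For every measurable `A` of measure `α > 0` in the `d`-torus with `volume (A + A) ≤ K * α` the set
`2 A - 2 A` contains a closed subtorus of codimension at most
`4 log (1 / α) + 3 * 10 ^ 11 * (1 + log K) ^ 2 * (1 + log (1 + log K))`.
-/

set_option autoImplicit false

open MeasureTheory Set Pool.Agent.Helper30.BX

namespace Pool.Agent.Results.MP_a4e7e3_co.AllSets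

theorem result (d : ℕ) (A : Set (Fin d → UnitAddCircle)) (hA : MeasurableSet A)
    (hpos : 0 < volume A) (K : ℝ) (hK1 : 1 ≤ K)
    (hK : volume {z | ∃ a ∈ A, ∃ b ∈ A, z = a + b} ≤ ENNReal.ofReal K * volume A) :
    ∃ (k : ℕ) (φ : (Fin k → UnitAddCircle) →+ (Fin d → UnitAddCircle)),
      Continuous φ ∧ Function.Injective φ ∧
      (d : ℝ) - k ≤ 4 * Real.log (1 / (volume A).toReal) +
        3 * 10 ^ 11 * (1 + Real.log K) ^ 2 * (1 + Real.log (1 + Real.log K)) ∧
      Set.range φ ⊆ {y | ∃ a b : Fin 2 → (Fin d → UnitAddCircle),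
        (∀ l, a l ∈ A) ∧ (∀ l, b l ∈ A) ∧ y = (∑ l, a l) - (∑ l, b l)} := by
  classical
  have hhalf : volume A / 2 < volume A := ENNReal.half_lt_self hpos.ne' (measure_ne_top _ _)
  obtain ⟨A', hA'A, hA'c, hA'lt⟩ := hA.exists_lt_isCompact_of_ne_top (measure_ne_top _ _) hhalf
  set U : Set (Fin d → UnitAddCircle) := (fun p : (Fin d → UnitAddCircle) × (Fin d → UnitAddCircle) =>
    p.1 + p.2) '' (A' ×ˢ A') with hUdef
  have hUc : IsCompact U := (hA'c.prod hA'c).image (continuous_fst.add continuous_snd)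
  have hUm : MeasurableSet U := hUc.isClosed.measurableSet
  have hA'm : MeasurableSet A' := hA'c.isClosed.measurableSet
  have hAU : ∀ a ∈ A', ∀ b ∈ A', a + b ∈ U := fun a ha b hb => ⟨(a, b), ⟨ha, hb⟩, rfl⟩
  have hUsub : U ⊆ {z | ∃ a ∈ A, ∃ b ∈ A, z = a + b} := by
    rintro z ⟨⟨a, b⟩, ⟨ha, hb⟩, rfl⟩
    exact ⟨a, hA'A ha, b, hA'A hb, rfl⟩
  rw [volume_eq_Pd] at hpos hA'lt hK ⊢
  set α : ℝ := ((Pd d) A).toReal with hα
  have hα0 : 0 < α := ENNReal.toReal_pos hpos.ne' (measure_ne_top _ _)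
  have hA'r : α / 2 < (Pd d).real A' := by
    have h1 := (ENNReal.toReal_lt_toReal (by
      exact (lt_of_lt_of_le hA'lt (le_of_lt (measure_lt_top _ _))).ne) (measure_ne_top _ _)).mpr hA'lt
    rw [ENNReal.toReal_div] at h1
    exact h1
  have hA'pos : 0 < (Pd d).real A' := by linarith
  have hUr : (Pd d).real U ≤ K * α := by
    have h1 := (measure_mono hUsub).trans hK
    have h2 := ENNReal.toReal_mono (ENNReal.mul_ne_top ENNReal.ofReal_ne_top (measure_ne_top _ _)) h1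
    rw [ENNReal.toReal_mul, ENNReal.toReal_ofReal (by linarith)] at h2
    exact h2
  have hlogK : 0 ≤ Real.log K := Real.log_nonneg hK1
  set ℓ : ℝ := 1 + Real.log K with hℓ
  have hℓ1 : 1 ≤ ℓ := by linarith
  have hexpℓ : 2 * K ≤ Real.exp ℓ := by
    rw [hℓ, Real.exp_add, Real.exp_log (by linarith)]
    have h1 := Real.exp_one_gt_d9
    nlinarith
  have hUℓ : (Pd d).real U ≤ Real.exp ℓ * (Pd d).real A' := by
    calc (Pd d).real U ≤ K * α := hUr
      _ ≤ 2 * K * (Pd d).real A' := by nlinarith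
      _ ≤ Real.exp ℓ * (Pd d).real A' := mul_le_mul_of_nonneg_right hexpℓ hA'pos.le
  obtain ⟨B, Bs, T, hBm, hBsm, hTm, hBpos, hBspos, hBv, hT, hinv⟩ :=
    levels2 (Pd d) hA'm hUm hA'pos hAU ℓ hℓ1 hUℓ
  have hTpos : 0 < (Pd d).real T := lt_of_lt_of_le (by positivity) hT
  obtain ⟨k, φ, hφc, hφi, hφd, hφB⟩ := torus_of_invariant d B T hBm hTm hBpos hTpos hinv
  refine ⟨k, φ, hφc, hφi, ?_, ?_⟩
  · refine hφd.trans ?_
    have hlogℓ : 0 ≤ Real.log ℓ := Real.log_nonneg hℓ1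
    have h1 : Real.log ((Pd d).real T) ≥
        -(7 * 10 ^ 10 * ℓ ^ 2 * (1 + Real.log ℓ)) + Real.log ((Pd d).real A') := by
      have h2 := Real.log_le_log (by positivity) hT
      rw [Real.log_mul (Real.exp_pos _).ne' hA'pos.ne', Real.log_exp] at h2
      exact h2
    have h2 : Real.log ((Pd d).real A') ≥ Real.log α - 1 := by
      have h3 := Real.log_le_log (by positivity) hA'r.le
      rw [Real.log_div hα0.ne' (by norm_num)] at h3
      have h4 := Real.log_two_lt_d9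
      linarith
    have h3 : Real.log (1 / (Pd d).real T) = -Real.log ((Pd d).real T) := by
      rw [Real.log_div one_ne_zero hTpos.ne', Real.log_one, zero_sub]
    have h4 : Real.log (1 / α) = -Real.log α := by
      rw [Real.log_div one_ne_zero hα0.ne', Real.log_one, zero_sub]
    rw [h3, h4]
    have h5 : 1 ≤ ℓ ^ 2 * (1 + Real.log ℓ) := by
      have h6 : 1 ≤ ℓ ^ 2 := one_le_pow₀ hℓ1
      nlinarith
    nlinarith
  · rintro y ⟨w, rfl⟩
    obtain ⟨x, hx, hxφ⟩ := hφB w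
    have h1 : ∃ s ∈ Bs, x + s ∈ U ∧ x + φ w + s ∈ U := by
      by_contra hcon
      push Not at hcon
      have h2 : Bs ⊆ {b | b ∈ Bs ∧ x + b ∉ U} ∪ {b | b ∈ Bs ∧ x + φ w + b ∉ U} := by
        intro s hs
        by_cases hxs : x + s ∈ U
        · exact Or.inr ⟨hs, hcon s hs hxs⟩
        · exact Or.inl ⟨hs, hxs⟩
      have h3 := (measureReal_mono h2 (measure_ne_top (Pd d) _)).trans (measureReal_union_le _ _)
      have h4 := hBv x hx
      have h5 := hBv (x + φ w) hxφ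
      unfold vv at h4 h5
      rw [div_le_iff₀ hBspos] at h4 h5
      linarith
    obtain ⟨s, -, h2, h3⟩ := h1
    obtain ⟨⟨b₁, b₂⟩, ⟨hb₁, hb₂⟩, hb⟩ := h2
    obtain ⟨⟨a₁, a₂⟩, ⟨ha₁, ha₂⟩, ha⟩ := h3
    refine ⟨![a₁, a₂], ![b₁, b₂], ?_, ?_, ?_⟩
    · intro l
      fin_cases l
      · exact hA'A ha₁
      · exact hA'A ha₂
    · intro l
      fin_cases l
      · exact hA'A hb₁
      · exact hA'A hb₂
    · rw [Fin.sum_univ_two, Fin.sum_univ_two]
      simp only [Matrix.cons_val_zero, Matrix.cons_val_one]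
      simp only at ha hb
      rw [ha, hb]
      abel

end Pool.Agent.Results.MP_a4e7e3_co.AllSets
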