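import Pool.Agent.Helper30.DB.Final

/-!
# MP_a4e7e3_co: linear codimension with polyloglog many summands

For every `ε > 0` there is a constant `C` such that for every measurable subset `A` of positive
measure `α` of a torus of any dimension, with `μ (A + A) ≤ K * α`, and every
`m ≥ C * (1 + log (1 + log K)) ^ (1 + ε)` the set `m A - m A` contains a closed subtorus of
codimension at most `C * (1 + log (1 / α))`.  One can take `K = 1 / α`.
-/

set_option autoImplicit false

open MeasureTheory Set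

namespace Pool.Agent.Results.MP_a4e7e3_co.LinearCodimension

theorem result (ε : ℝ) (hε : 0 < ε) :
    ∃ C : ℝ, 0 < C ∧
      ∀ (d : ℕ) (A : Set (Fin d → UnitAddCircle)), MeasurableSet A → 0 < volume A →
      ∀ K : ℝ, 1 ≤ K →
      volume {z | ∃ a ∈ A, ∃ b ∈ A, z = a + b} ≤ ENNReal.ofReal K * volume A →
      ∀ m : ℕ, C * (1 + Real.log (1 + Real.log K)) ^ (1 + ε) ≤ m →
      ∃ (k : ℕ) (φ : (Fin k → UnitAddCircle) →+ (Fin d → UnitAddCircle)),
        Continuous φ ∧ Function.Injective φ ∧
        (d : ℝ) - k ≤ C * (1 + Real.log (1 / (volume A).toReal)) ∧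
        Set.range φ ⊆ {y | ∃ a b : Fin m → (Fin d → UnitAddCircle),
          (∀ l, a l ∈ A) ∧ (∀ l, b l ∈ A) ∧ y = (∑ l, a l) - (∑ l, b l)} := by
  obtain ⟨C, hC, h⟩ := Pool.Agent.Helper30.DB.db_linear ε hε
  exact ⟨C, hC, fun d A hA hpos K hK1 hK m hm => h d A hA hpos K hK1 hK m hm⟩

end Pool.Agent.Results.MP_a4e7e3_co.LinearCodimension
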