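import Pool.Agent.Helper30.Bog.Sym

/-!
# MP_a4e7e3_co: the polynomial Bogolyubov statement for permutation-invariant sets

The coordinates are divided into `m` classes and `A` is invariant under every permutation of the
coordinates preserving the classes (`m = 1`: `A` is permutation-invariant).
-/

set_option autoImplicit false

open MeasureTheory Set

namespace Pool.Agent.Results.MP_a4e7e3_co.SymmetricSets

theorem result (d m : ℕ) (κ : Fin d → Fin m) (A : Set (Fin d → UnitAddCircle))
    (hA : MeasurableSet A) (hpos : 0 < volume A)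
    (hinv : ∀ σ : Equiv.Perm (Fin d), (∀ i, κ (σ i) = κ i) → ∀ x ∈ A, (fun i => x (σ i)) ∈ A) :
    ∃ (k : ℕ) (φ : (Fin k → UnitAddCircle) →+ (Fin d → UnitAddCircle)),
      Continuous φ ∧ Function.Injective φ ∧
      (d : ℝ) - k ≤ Real.log (1 / (volume A).toReal) / Real.log Real.goldenRatio + m ∧
      (d : ℝ) - k ≤ (1 / Real.log Real.goldenRatio + m / Real.log 2) *
        Real.log (1 / (volume A).toReal) ∧
      Set.range φ ⊆ {y | ∃ a b : Fin 3 → (Fin d → UnitAddCircle),
        (∀ l, a l ∈ A) ∧ (∀ l, b l ∈ A) ∧ y = (∑ l, a l) - (∑ l, b l)} := by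
  classical
  have hα0 : 0 < (volume A).toReal := ENNReal.toReal_pos hpos.ne' (measure_ne_top _ _)
  have hα1 : (volume A).toReal ≤ 1 := measureReal_le_one
  have hlogφ : 0 < Real.log Real.goldenRatio := Real.log_pos Real.one_lt_goldenRatio
  have hlog2 : 0 < Real.log 2 := Real.log_pos (by norm_num)
  have hL : 0 ≤ Real.log (1 / (volume A).toReal) := by
    apply Real.log_nonneg
    rw [le_div_iff₀ hα0]
    linarith
  by_cases hhalf : 1 / 2 < (volume A).toReal
  · -- large sets: the difference set is everything
    refine ⟨d, AddMonoidHom.id _, continuous_id, fun x y h => h, ?_, ?_, ?_⟩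
    · rw [sub_self]
      positivity
    · rw [sub_self]
      positivity
    · rintro y -
      have hmeas : MeasurableSet ((fun x : Fin d → UnitAddCircle => y + x) ⁻¹' A) :=
        (measurable_const.add measurable_id) hA
      have hpre : volume ((fun x : Fin d → UnitAddCircle => y + x) ⁻¹' A) = volume A :=
        measure_preimage_add volume y A
      have hlt : volume (univ : Set (Fin d → UnitAddCircle)) <
          volume A + volume ((fun x : Fin d → UnitAddCircle => y + x) ⁻¹' A) := by
        rw [hpre, measure_univ]
        have h2 : ENNReal.ofReal 1 < ENNReal.ofReal ((volume A).toReal + (volume A).toReal) :=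
          (ENNReal.ofReal_lt_ofReal_iff (by linarith)).mpr (by linarith)
        rw [ENNReal.ofReal_one, ENNReal.ofReal_add hα0.le hα0.le,
          ENNReal.ofReal_toReal (measure_ne_top _ _)] at h2
        exact h2
      obtain ⟨x, hx1, hx2⟩ := nonempty_inter_of_measure_lt_add volume hmeas (subset_univ A)
        (subset_univ _) hlt
      refine ⟨fun l => if l = 0 then y + x else x, fun _ => x, ?_, fun _ => hx1, ?_⟩
      · intro l
        by_cases h : l = 0
        · simp only [h, if_true]; exact hx2
        · simp only [h, if_false]; exact hx1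
      · rw [Fin.sum_univ_three, Fin.sum_univ_three]
        simp
  · obtain ⟨J, hJ1, hJ2⟩ := Pool.Agent.Helper30.Bog.proj_one hA hα0
    obtain ⟨k, φ, h1, h2, h3, h4, h5⟩ := Pool.Agent.Helper30.Bog.exists_torus J κ
    have hb1 : (d : ℝ) - k ≤ Real.log (1 / (volume A).toReal) / Real.log Real.goldenRatio + m :=
      h3.trans (by
        have : (J.card : ℝ) ≤ Real.log (1 / (volume A).toReal) / Real.log Real.goldenRatio := hJ1
        linarith)
    refine ⟨k, φ, h1, h2, hb1, ?_, ?_⟩
    · have hl : Real.log 2 ≤ Real.log (1 / (volume A).toReal) := by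
        apply Real.log_le_log (by norm_num)
        rw [le_div_iff₀ hα0]
        rw [not_lt] at hhalf
        linarith
      have h6 : (m : ℝ) ≤ m / Real.log 2 * Real.log (1 / (volume A).toReal) := by
        rw [div_mul_eq_mul_div, le_div_iff₀ hlog2]
        exact mul_le_mul_of_nonneg_left hl (Nat.cast_nonneg m)
      refine hb1.trans ?_
      rw [add_mul]
      have e : 1 / Real.log Real.goldenRatio * Real.log (1 / (volume A).toReal) =
          Real.log (1 / (volume A).toReal) / Real.log Real.goldenRatio := by ring
      rw [e]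
      linarith
    · rintro _ ⟨w, rfl⟩
      -- the cyclic permutation outside `J`
      obtain ⟨σ, hσ1, hσ2⟩ := Pool.Agent.Helper30.Bog.exists_cycles
        (fun i : {i : Fin d // i ∉ J} => κ i.1)
      obtain ⟨u, hu⟩ := hσ2 (fun i => φ w i.1) (by
        intro b
        rw [← h5 w b]
        have e1 : (Finset.univ.filter (fun i : {i : Fin d // i ∉ J} => κ i.1 = b)).map
            (Function.Embedding.subtype _) = Finset.univ.filter (fun i => i ∉ J ∧ κ i = b) := by
          ext i
          simp only [Finset.mem_map, Finset.mem_filter, Finset.mem_univ, true_and,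
            Function.Embedding.subtype_apply, Subtype.exists, exists_and_right, exists_eq_right]
          constructor
          · rintro ⟨h, h'⟩
            exact ⟨h, h'⟩
          · rintro ⟨h, h'⟩
            exact ⟨h, h'⟩
        rw [← e1, Finset.sum_map]
        rfl)
      obtain ⟨x, hx1, hx2⟩ := hJ2 (fun i => if h : i ∉ J then u ⟨i, h⟩ else 0)
      set τ : Equiv.Perm (Fin d) := Equiv.Perm.ofSubtype σ with hτ
      have hτJ : ∀ i ∈ J, τ i = i := by
        intro i hi
        exact Equiv.Perm.ofSubtype_apply_of_not_mem σ (by simpa using hi)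
      have hτN : ∀ i (h : i ∉ J), τ i = (σ ⟨i, h⟩).1 := by
        intro i h
        exact Equiv.Perm.ofSubtype_apply_of_mem σ h
      have hτκ : ∀ i, κ (τ i) = κ i := by
        intro i
        by_cases h : i ∈ J
        · rw [hτJ i h]
        · rw [hτN i h]
          exact hσ1 ⟨i, h⟩
      refine ⟨x, fun l i => x l (τ i), hx1, fun l => hinv τ hτκ (x l) (hx1 l), ?_⟩
      funext i
      have e2 : ((∑ l, x l) - ∑ l, fun i => x l (τ i)) i = (∑ l, x l) i - (∑ l, x l) (τ i) := by
        simp only [Pi.sub_apply, Finset.sum_apply]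
      rw [e2]
      by_cases h : i ∈ J
      · rw [hτJ i h, sub_self]
        exact h4 w i h
      · have h' : τ i ∉ J := by
          rw [hτN i h]
          exact (σ ⟨i, h⟩).2
        rw [hx2 i h, hx2 (τ i) h', dif_pos h, dif_pos h']
        have e3 : (⟨τ i, h'⟩ : {i : Fin d // i ∉ J}) = σ ⟨i, h⟩ := Subtype.ext (hτN i h)
        rw [e3]
        exact (hu ⟨i, h⟩).symm

end Pool.Agent.Results.MP_a4e7e3_co.SymmetricSets
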